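import Pool.Agent.H546.F36
import Pool.Agent.H546.Lin2

set_option autoImplicit false

/-!
# `∑ (4k)!/k!^4 / (-3·2^12)^k` modulo `p²` (Q2)

The proof: the sum is the square of a Legendre polynomial modulo `p²` (Clausen); the elliptic curve
`y² = V³ - 4V² + 4zV`, `z = 1/2 - 7√3/24`, with complex multiplication by the order of discriminant `-36`, has
isogenies of degrees `2` and `5` to its conjugate; over the Witt vectors of an algebraic closure of `ZMod p` a
combination of these isogenies of degree `p` lifts the Frobenius, and comparing expansions modulo `p²` gives the value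
of the Legendre polynomial modulo `p²`. In the last case the Hasse invariant vanishes.
-/

open Finset

namespace Pool.Agent.Results.MP_b6d9c9_nt.TwentyEightThree

/-- the constant `m = -3 · 2^12` -/
def m : ℤ := -3 * 2 ^ 12

/-- the sum `S(p) = ∑_{k<p} (4k)!/(k!)^4 / m^k` -/
def S (p : ℕ) : ℚ := ∑ k ∈ range p, (((4 * k).factorial : ℚ) / (k.factorial : ℚ) ^ 4) / (m : ℚ) ^ k

/-- congruence modulo `p²` of rational numbers: `(a - b) / p²` has denominator prime to `p` -/
def Cong (p : ℕ) (a b : ℚ) : Prop := p.Coprime ((a - b) / (p : ℚ) ^ 2).den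

/-- `χ(n)` is `0, 1, -1` according as `n ≡ 0, 1, 2 (mod 3)` -/
def chi (n : ℤ) : ℤ := if n % 3 = 0 then 0 else if n % 3 = 1 then 1 else -1

open Pool.Agent.H546

theorem s5 : S 5 = 105348698709793 / 105553116266496 := by
  norm_num [S, m, sum_range_succ, Nat.factorial]

theorem sq_mod3 (x : ℤ) : x % 3 = 0 ∧ x ^ 2 % 3 = 0 ∨ x % 3 ≠ 0 ∧ x ^ 2 % 3 = 1 := by
  have h : x % 3 = 0 ∨ x % 3 = 1 ∨ x % 3 = 2 := by omega
  rcases h with h | h | h
  · left; exact ⟨h, by rw [pow_two, Int.mul_emod, h]; norm_num⟩
  · right; exact ⟨by omega, by rw [pow_two, Int.mul_emod, h]; norm_num⟩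
  · right; exact ⟨by omega, by rw [pow_two, Int.mul_emod, h]; norm_num⟩

/-- **The full answer to Q2.** -/
theorem result (p : ℕ) (hp : p.Prime) (h3 : 3 < p) :
    (p % 12 = 1 → ∀ x y : ℤ, (p : ℤ) = x ^ 2 + y ^ 2 → x % 4 = 1 → y % 2 = 0 →
      Cong p (S p) ((-1) ^ (x / 6) * (4 * x ^ 2 - 2 * p))) ∧
    (p % 12 = 5 → ∀ x y : ℤ, (p : ℤ) = x ^ 2 + y ^ 2 → x % 4 = 1 → y % 2 = 0 →
      Cong p (S p) (-4 * x * y * chi (x * y))) ∧
    (p % 4 = 3 → Cong p (S p) 0) := by
  have : Fact p.Prime := ⟨hp⟩
  have hM : ¬ (p : ℤ) ∣ -12288 := ndvd_fac [(2, 12), (3, 1)]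
    (by simp; exact ⟨⟨by norm_num, by omega⟩, ⟨by norm_num, by omega⟩⟩) (by norm_num)
  obtain ⟨wi, hwi⟩ := inv_exists hM
  have tr : ∀ E : ℤ, ∑ k ∈ range p, (k.centralBinom : ZMod (p ^ 2)) *
      ((u4 k : ℕ) : ZMod (p ^ 2)) * wi ^ k = ((E : ℤ) : ZMod (p ^ 2)) →
      Cong p (S p) (E : ℚ) := by
    intro E hE
    have h := tr4 hM hwi E hE
    have e : m = -12288 := by norm_num [m]
    unfold Cong S
    rw [e]
    exact h
  obtain ⟨m1, m2, m3⟩ := d36 p h3 hwi
  refine ⟨fun hc x y hxy hx hy => ?_, fun hc x y hxy hx hy => ?_, fun hc => ?_⟩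
  · rcases sq_mod3 x with ⟨ha, ha2⟩ | ⟨ha, ha2⟩ <;> rcases sq_mod3 y with ⟨hb, hb2⟩ | ⟨hb, hb2⟩
    · exfalso; omega
    · -- `3 ∣ x`
      obtain ⟨a, rfl⟩ : ∃ a, x = 3 * a := ⟨x / 3, by omega⟩
      have hodd : Odd ((3 * a) / 6) := by
        rw [Int.odd_iff]; omega
      rw [Odd.neg_one_zpow hodd]
      have := tr _ (m1 hc y a (by rw [hxy]; ring))
      have hq : (p : ℚ) = (3 * a) ^ 2 + y ^ 2 := by exact_mod_cast hxy
      convert this using 1
      push_cast
      linear_combination 4 * hq
    · obtain ⟨b, rfl⟩ : ∃ b, y = 3 * b := ⟨y / 3, by omega⟩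
      have heven : Even (x / 6) := by
        rw [Int.even_iff]; omega
      rw [Even.neg_one_zpow heven]
      have := tr _ (m1 hc x b (by rw [hxy]; ring))
      convert this using 1
      push_cast; ring
    · exfalso; omega
  · by_cases h5 : p = 5
    · subst h5
      push_cast at hxy
      have hx0 := sq_nonneg x
      have hy0 := sq_nonneg y
      have hx1 : x < 3 := by nlinarith
      have hx2 : -3 < x := by nlinarith
      have hy1 : y < 3 := by nlinarith
      have hy2 : -3 < y := by nlinarith
      have key : Cong 5 (S 5) 8 := by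
        refine cop_of_eq (n := -29563049256887) (d := 105553116266496) ?_ (by norm_num)
        rw [s5]; norm_num
      have hx' : x = 1 := by
        interval_cases x <;> first | rfl | omega
      subst hx'
      have hy' : y = 2 ∨ y = -2 := by
        interval_cases y <;> first | omega | (norm_num at hxy)
      rcases hy' with rfl | rfl
      · have : chi (1 * 2) = -1 := by norm_num [chi]
        rw [this]; convert key using 1; norm_num
      · have : chi (1 * -2) = 1 := by norm_num [chi]
        rw [this]; convert key using 1; norm_num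
    have h5' : 5 < p := by
      have : p ≠ 4 := by rintro rfl; exact absurd hp (by norm_num)
      omega
    have hq : (p : ℚ) = x ^ 2 + y ^ 2 := by exact_mod_cast hxy
    rcases sq_mod3 x with ⟨ha, ha2⟩ | ⟨ha, ha2⟩
    · rcases sq_mod3 y with ⟨hb, hb2⟩ | ⟨hb, hb2⟩ <;> (exfalso; omega)
    rcases sq_mod3 y with ⟨hb, hb2⟩ | ⟨hb, hb2⟩
    · exfalso; omega
    have hxy3 : (x - y) % 3 = 0 ∨ (x + y) % 3 = 0 := by
      have hx3 : x % 3 = 1 ∨ x % 3 = 2 := by clear hx hy; omega
      have hy3 : y % 3 = 1 ∨ y % 3 = 2 := by clear hx hy; omega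
      rcases hx3 with h1 | h1 <;> rcases hy3 with h2 | h2
      · left; omega
      · right; omega
      · right; omega
      · left; omega
    rcases hxy3 with h | h
    · obtain ⟨b, hb'⟩ : ∃ b, x - y = 3 * b := ⟨(x - y) / 3, by omega⟩
      have hchi : chi (x * y) = 1 := by
        have h1 : (x * y) % 3 = 1 := by
          have e : x * y = y ^ 2 + 3 * (b * y) := by linear_combination y * hb'
          omega
        unfold chi
        rw [if_neg (by omega), if_pos h1]
      rw [hchi]
      have := tr _ (m2 hc h5' (x + y) b (by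
        rw [hxy]
        linear_combination (x - y + 3 * b) * hb'))
      convert this using 1
      push_cast
      linear_combination -2 * hq
    · obtain ⟨b, hb'⟩ : ∃ b, x + y = 3 * b := ⟨(x + y) / 3, by omega⟩
      have hchi : chi (x * y) = -1 := by
        have h1 : (x * y) % 3 = 2 := by
          have e : x * y = -(y ^ 2) + 3 * (b * y) := by linear_combination y * hb'
          omega
        unfold chi
        rw [if_neg (by omega), if_neg (by omega)]
      rw [hchi]
      have := tr _ (m2 hc h5' (x - y) b (by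
        rw [hxy]
        linear_combination (x + y + 3 * b) * hb'))
      convert this using 1
      push_cast
      linear_combination -2 * hq
  · have := tr _ (m3 hc)
    push_cast at this; exact this

end Pool.Agent.Results.MP_b6d9c9_nt.TwentyEightThree
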